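import Pool.Agent.Helper86.TC8.Stmts

/-!
# NATR: the natural rules
-/

set_option autoImplicit false

namespace Pool.Agent.Helper2.TC8

open Pool.Agent.Helper86.TC8

variable {V : Type}

/-- one step of the value -/
theorem valW_inl {G : CG V} {Z P : V → Bool} (u : Bool → V → Bool) (k : ℕ) {h h' : WS V}
    (hs : stepW G Z P h = .inl h') : valW G Z P u (k + 1) h = u h'.1 h'.2 := by
  simp only [valW, hs]

/-- one step of the value -/
theorem valW_inr {G : CG V} {Z P : V → Bool} (u : Bool → V → Bool) (k : ℕ) {h h' : WS V}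
    (hs : stepW G Z P h = .inr h') : valW G Z P u (k + 1) h = !(valW G Z P u k h') := by
  simp only [valW, hs]

/-- the value depends only on the step -/
theorem valW_congr {G : CG V} {Z P : V → Bool} (u : Bool → V → Bool) (k : ℕ) {h h' : WS V}
    (hs : stepW G Z P h = stepW G Z P h') :
    valW G Z P u (k + 1) h = valW G Z P u (k + 1) h' := by
  simp only [valW, hs]

/-- the value does not change after the walker has stopped -/
theorem valW_stops (G : CG V) (Z P : V → Bool) (u : Bool → V → Bool) : ∀ (k : ℕ) (h : WS V),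
    Stops G Z P k h → valW G Z P u (k + 1) h = valW G Z P u k h
  | 0, _, hs => absurd hs id
  | k + 1, h, hs => by
    cases hst : stepW G Z P h with
    | inl h' => rw [valW_inl u _ hst, valW_inl u _ hst]
    | inr h' =>
      have h1 : Stops G Z P k h' := by
        simp only [Stops, hst] at hs
        exact hs
      rw [valW_inr u _ hst, valW_inr u _ hst, valW_stops G Z P u k h' h1]

/-- the rule for the letter `b` -/
theorem nat_b (hREL : ST_REL) {C : Ctx V} {R D0 D1 : ℕ} (hC : Hyp C R D0 D1) (ω : Idx V → Bool)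
    (x : V) (hx : C.Z x = false) (hb : C.Z (C.G.bw x) = false)
    (hs : ∀ t, Stops C.G C.Z (PP C ω) C.LF (t, C.G.bw x)) :
    sd C (ph ω) (C.G.bw x) = (sd C (ph ω) x ^^ PP C ω x) ∧
    (PP C ω x = true → (nat C ω (C.G.bw x)).B = !(nat C ω x).m) ∧
    (PP C ω x = false → (nat C ω (C.G.bw x)).m = !(nat C ω x).m ∧
      (nat C ω (C.G.bw x)).B = !(nat C ω x).B) := by
  refine ⟨(hREL V C R D0 D1 hC (ph ω) x hx).2.1 hb, fun hP => ?_, fun hP => ⟨?_, ?_⟩⟩
  · have h1 : stepW C.G C.Z (PP C ω) (false, x) = .inr (true, C.G.bw x) := by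
      simp [stepW, hb, hP]
    change valW C.G C.Z (PP C ω) (sb ω) (C.LF + 1) (true, C.G.bw x) =
      !(valW C.G C.Z (PP C ω) (sb ω) (C.LF + 1) (false, x))
    rw [valW_inr _ _ h1, Bool.not_not, valW_stops _ _ _ _ _ _ (hs true)]
  · have h1 : stepW C.G C.Z (PP C ω) (false, x) = .inr (false, C.G.bw x) := by
      simp [stepW, hb, hP]
    change valW C.G C.Z (PP C ω) (sb ω) (C.LF + 1) (false, C.G.bw x) =
      !(valW C.G C.Z (PP C ω) (sb ω) (C.LF + 1) (false, x))
    rw [valW_inr _ _ h1, Bool.not_not, valW_stops _ _ _ _ _ _ (hs false)]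
  · have h1 : stepW C.G C.Z (PP C ω) (true, x) = .inr (true, C.G.bw x) := by
      simp [stepW, hb, hP]
    change valW C.G C.Z (PP C ω) (sb ω) (C.LF + 1) (true, C.G.bw x) =
      !(valW C.G C.Z (PP C ω) (sb ω) (C.LF + 1) (true, x))
    rw [valW_inr _ _ h1, Bool.not_not, valW_stops _ _ _ _ _ _ (hs true)]

/-- the rule for the letter `n`, at a vertex of status `1` -/
theorem nat_n (hREL : ST_REL) {C : Ctx V} {R D0 D1 : ℕ} (hC : Hyp C R D0 D1) (ω : Idx V → Bool)
    (x : V) (hx : C.Z x = false) (hn : C.Z (C.G.nu x) = false) (hP : PP C ω x = true) :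
    (nat C ω (C.G.nu x)).m = (nat C ω x).B := by
  have hP' : PP C ω (C.G.nu x) = false := by
    have := (hREL V C R D0 D1 hC (ph ω) x hx).2.2.2 hn
    change PP C ω (C.G.nu x) = !(PP C ω x) at this
    rw [this, hP]
    rfl
  have h1 : stepW C.G C.Z (PP C ω) (false, C.G.nu x) = stepW C.G C.Z (PP C ω) (true, x) := by
    simp [stepW, hn, hP, hP']
  change valW C.G C.Z (PP C ω) (sb ω) (C.LF + 1) (false, C.G.nu x) =
    valW C.G C.Z (PP C ω) (sb ω) (C.LF + 1) (true, x)
  exact valW_congr _ _ h1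

/-- the natural rules -/
theorem st_NATR (hREL : ST_REL) : ST_NATR := by
  intro V C R D0 D1 hC ω c x hx hcx hs hs'
  cases c with
  | n =>
    change C.Z (C.G.nu x) = false at hcx
    have h1 := hREL V C R D0 D1 hC (ph ω) x hx
    have h2 : (nat C ω (C.G.nu x)).s = !(nat C ω x).s := h1.1 hcx
    have h3 : (nat C ω (C.G.nu x)).P = !(nat C ω x).P := h1.2.2.2 hcx
    have h4 : (nat C ω x).P = true → (nat C ω (C.G.nu x)).m = (nat C ω x).B := fun hP =>
      nat_n hREL hC ω x hx hcx hP
    have h5 : (nat C ω x).P = false → (nat C ω (C.G.nu x)).B = (nat C ω x).m := fun hP => by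
      have h6 := nat_n hREL hC ω (C.G.nu x) hcx (by rw [C.G.nu_nu]; exact hx) (by
        change (nat C ω (C.G.nu x)).P = true
        rw [h3, hP]
        rfl)
      rw [C.G.nu_nu] at h6
      exact h6.symm
    change nxt .n (nat C ω x) (nat C ω (C.G.nu x)) = true
    simp only [nxt, h2, h3]
    cases hP : (nat C ω x).P with
    | true => simp [h4 hP]
    | false => simp [h5 hP]
  | b =>
    change C.Z (C.G.bw x) = false at hcx
    obtain ⟨h1, h2, h3⟩ := nat_b hREL hC ω x hx hcx hs'
    have h1' : (nat C ω (C.G.bw x)).s = ((nat C ω x).s ^^ (nat C ω x).P) := h1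
    change nxt .b (nat C ω x) (nat C ω (C.G.bw x)) = true
    simp only [nxt, h1']
    cases hP : (nat C ω x).P with
    | true => simp [h2 hP]
    | false => simp [(h3 hP).1, (h3 hP).2]
  | f =>
    change C.Z (C.G.fw x) = false at hcx
    have hbf : C.G.bw (C.G.fw x) = x := C.G.bw_fw x
    obtain ⟨h1, h2, h3⟩ := nat_b hREL hC ω (C.G.fw x) hcx (by rw [hbf]; exact hx)
      (by rw [hbf]; exact hs)
    rw [hbf] at h1 h2 h3
    have h1' : (nat C ω x).s = ((nat C ω (C.G.fw x)).s ^^ (nat C ω (C.G.fw x)).P) := h1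
    change nxt .f (nat C ω x) (nat C ω (C.G.fw x)) = true
    simp only [nxt, h1']
    cases hP : (nat C ω (C.G.fw x)).P with
    | true => simp [h2 hP]
    | false => simp [(h3 hP).1, (h3 hP).2]

end Pool.Agent.Helper2.TC8
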