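import Pool.Agent.Helper86.TC8.Stmts
import Pool.Agent.Helper86.TC8.Base

/-!
# STAR: the law of the branch at a centre, together with a path of a walker
-/

set_option autoImplicit false

namespace Pool.Agent.Helper2.TC8

open Finset
open scoped Classical
open Pool.Agent.Helper86.TC8

variable {V : Type}

/-- natural transitions have positive weight -/
theorem kw_ne_zero {c : L} {x y : St} (h : nxt c x y = true) : kw c x y ≠ 0 := by
  have h1 : kn c x y ≠ 0 := by
    cases c <;> simp only [kn, h, if_true] <;> (try split_ifs) <;> norm_num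
  unfold kw
  exact div_ne_zero (by exact_mod_cast h1) (by norm_num)

/-- the tree which is read matches -/
theorem mtch_rd (G : CG V) (nt : V → St) (s P : V → Bool) (hs : ∀ x, s x = (nt x).s)
    (hP : ∀ x, P x = (nt x).P) : ∀ (d : ℕ) (a : L) (x : V), mtch G s P d a x (rd G nt d a x)
  | 0, _, x => ⟨hs x, hP x⟩
  | d + 1, a, x => ⟨hs x, hP x, mtch_rd G nt s P hs hP d (k1 a) _,
      mtch_rd G nt s P hs hP d (k2 a) _⟩

/-- the weight of a tree of natural states -/
theorem wtr_ne_zero (G : CG V) (nt : V → St) (S : V → Prop)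
    (hn : ∀ c x, S x → S (act1 G c x) → nxt c (nt x) (nt (act1 G c x)) = true) :
    ∀ (d : ℕ) (a : L) (x : V), (∀ y ∈ br G d a x, S y) → wtr d a (rd G nt d a x) ≠ 0
  | 0, _, _, _ => one_ne_zero
  | d + 1, a, x, h => by
    have h0 := h x (self_mem_br G _ a x)
    have h1 := h _ (br_k1 G d a x (self_mem_br G d _ _))
    have h2 := h _ (br_k2 G d a x (self_mem_br G d _ _))
    have h3 := wtr_ne_zero G nt S hn d (k1 a) _ fun y hy => h y (br_k1 G d a x hy)
    have h4 := wtr_ne_zero G nt S hn d (k2 a) _ fun y hy => h y (br_k2 G d a x hy)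
    simp only [wtr, rd, root_rd]
    exact mul_ne_zero (mul_ne_zero (mul_ne_zero (kw_ne_zero (hn _ _ h0 h1))
      (kw_ne_zero (hn _ _ h0 h2))) h3) h4

/-- monotonicity -/
theorem pr_mono' {ι : Type} [Fintype ι] {A B : (ι → Bool) → Prop} (h : ∀ ω, A ω → B ω) :
    pr A ≤ pr B := by
  unfold pr
  refine div_le_div_of_nonneg_right ?_ (by positivity)
  exact_mod_cast card_le_card (monotone_filter_right _ fun ω _ => h ω)

/-- impossible events -/
theorem pr_false' {ι : Type} [Fintype ι] {A : (ι → Bool) → Prop} (h : ∀ ω, ¬ A ω) :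
    pr A = 0 := by
  unfold pr
  rw [filter_false_of_mem fun ω _ => h ω, card_empty, Nat.cast_zero, zero_div]

/-- (STAR) -/
theorem st_STAR (h1 : ST_SIDEP) (h2 : ST_BITSP) (h3 : ST_CNTID) (h4 : ST_NATR) (_h5 : ST_FRV) :
    ST_STAR := by
  intro V _ C R D0 D1 hC z a t y t0 l hz hy hl
  by_cases hw : wtr R a t = 0
  · rw [pr_false', hw, mul_zero, mul_zero]
    rintro ω ⟨hrd, hst, -⟩
    refine wtr_ne_zero C.G (nat C ω)
      (fun x => C.Z x = false ∧ ∀ t, Stops C.G C.Z (PP C ω) C.LF (t, x))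
      (fun c x hx hcx => h4 V C R D0 D1 hC ω c x hx.1 hcx.1 hx.2 hcx.2) R a (act1 C.G a z)
      (fun x hx => ⟨hC.Z_br hz a hx, hst x hx⟩) ?_
    rw [hrd]
    exact hw
  · let A : (V → Bool) → Prop := fun p =>
      mtch C.G (sd C p) (ps C p) R a (act1 C.G a z) t ∧
      (∀ x ∈ br C.G R a (act1 C.G a z), ∀ t1, Stops C.G C.Z (ps C p) C.LF (t1, x)) ∧
      follows C.G C.Z (ps C p) l (t0, y)
    have e1 : pr (fun ω : Idx V → Bool => rd C.G (nat C ω) R a (act1 C.G a z) = t ∧
        StopBr C R a (act1 C.G a z) ω ∧ follows C.G C.Z (PP C ω) l (t0, y)) ≤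
        pr (fun ω : Idx V → Bool => A (ph ω) ∧ rd C.G (nat C ω) R a (act1 C.G a z) = t) := by
      refine pr_mono' ?_
      rintro ω ⟨hrd, hst, hf⟩
      refine ⟨⟨?_, hst, hf⟩, hrd⟩
      rw [← hrd]
      exact mtch_rd C.G (nat C ω) _ _ (fun _ => rfl) (fun _ => rfl) R a _
    have e2 := h2 V C R D0 D1 hC z a t A hz fun p hp => ⟨hp.1, hp.2.1⟩
    have e3 : pr (fun ω : Idx V → Bool => A (ph ω)) ≤
        pr (fun ω : Idx V → Bool => mtch C.G (sd C (ph ω)) (PP C ω) R a (act1 C.G a z) t ∧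
          follows C.G C.Z (PP C ω) l (t0, y)) :=
      pr_mono' fun ω hω => ⟨hω.1, hω.2.2⟩
    have e4 := h1 V C R D0 D1 hC z a t y t0 l hz hy hl
    have e5 := h3 R a t hw
    refine e1.trans (e2.trans ?_)
    refine (mul_le_mul_of_nonneg_left (e3.trans e4) (by positivity)).trans (le_of_eq ?_)
    rw [← e5]
    ring

end Pool.Agent.Helper2.TC8
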